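import Pool.Agent.H65.Squier3

set_option autoImplicit false

open Pool.Agent.H65.Squier

theorem Pool.Agent.Results.MP_6c430b_al.Undec.result :
    ∃ (k : ℕ) (R : Set (List (Fin k) × List (Fin k))), R.Finite ∧
      (∀ r ∈ R, r.1 ≠ [] ∧ r.2 ≠ [] ∧ (r.2, r.1) ∉ R) ∧
      ¬ ComputablePred fun w : List (Fin k) =>
        ∃ h : w ≠ [], Nontrivial (DiagramGroup R ⟨w, h⟩) :=
  triv_undec
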